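import Mathlib

/-!
Polynomials whose coefficients are killed by a derivation, parametrised polynomials, and the
parameter count for determinants of small rank perturbations.
-/

namespace Pool.Agent.H532R2.DT

open MvPolynomial

section kill

variable {F : Type*} [Field F] {S : Type*} [CommRing S] [Algebra F S] {n : ℕ}

/-- the polynomials over `S` all of whose coefficients are killed by `D` -/
noncomputable def Kc (n : ℕ) (D : Derivation F S S) : Subring (MvPolynomial (Fin n) S) where
  carrier := {g | ∀ m, D (coeff m g) = 0}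
  mul_mem' := by
    classical
    intro a b ha hb m
    rw [coeff_mul, map_sum]
    apply Finset.sum_eq_zero
    intro x _
    rw [Derivation.leibniz, ha, hb, smul_zero, smul_zero, add_zero]
  one_mem' := by
    classical
    intro m
    rw [coeff_one]
    split_ifs
    · exact D.map_one_eq_zero
    · exact map_zero _
  add_mem' := by
    intro a b ha hb m
    rw [coeff_add, map_add, ha, hb, add_zero]
  zero_mem' := by
    intro m
    rw [coeff_zero, map_zero]
  neg_mem' := by
    intro a ha m
    rw [coeff_neg, map_neg, ha, neg_zero]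

theorem mem_Kc {D : Derivation F S S} {g : MvPolynomial (Fin n) S} :
    g ∈ Kc n D ↔ ∀ m, D (coeff m g) = 0 := Iff.rfl

theorem X_mem_Kc (D : Derivation F S S) (i : Fin n) : (X i : MvPolynomial (Fin n) S) ∈ Kc n D := by
  classical
  intro m
  rw [coeff_X]
  split_ifs
  · exact D.map_one_eq_zero
  · exact map_zero _

theorem C_mem_Kc {D : Derivation F S S} {x : S} (hx : D x = 0) :
    (C x : MvPolynomial (Fin n) S) ∈ Kc n D := by
  classical
  intro m
  rw [coeff_C]
  split_ifs
  · exact hx
  · exact map_zero _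

theorem cancel_Kc [IsDomain S] {D : Derivation F S S} {x : S} (hx : D x = 0) (hx0 : x ≠ 0)
    {g : MvPolynomial (Fin n) S} (h : C x * g ∈ Kc n D) : g ∈ Kc n D := by
  intro m
  have h1 := h m
  rw [coeff_C_mul, Derivation.leibniz, hx, smul_zero, add_zero, smul_eq_mul] at h1
  rcases mul_eq_zero.1 h1 with h2 | h2
  · exact absurd h2 hx0
  · exact h2

theorem eval_Kc {D : Derivation F S S} {g : MvPolynomial (Fin n) S} (h : g ∈ Kc n D)
    (c : Fin n → ℕ) : D (eval (fun i => (c i : S)) g) = 0 := by
  rw [eval_eq', map_sum]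
  apply Finset.sum_eq_zero
  intro m _
  have h1 : (∏ i, (c i : S) ^ m i) = ((∏ i, (c i) ^ m i : ℕ) : S) := by push_cast; rfl
  rw [Derivation.leibniz, h m, h1, Derivation.map_natCast, smul_zero, smul_zero, add_zero]

theorem det_mem {R : Type*} [CommRing R] {k : Type*} [Fintype k] [DecidableEq k] (T : Subring R)
    (M : Matrix k k R) (hM : ∀ i j, M i j ∈ T) : M.det ∈ T := by
  rw [Matrix.det_apply']
  refine Subring.sum_mem _ fun σ _ => Subring.mul_mem _ ?_ (Subring.prod_mem _ fun i _ => hM _ _)
  exact intCast_mem T _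

/-- a point where a nonzero polynomial does not vanish -/
theorem exists_eval_ne [IsDomain S] [CharZero S] {g : MvPolynomial (Fin n) S} (hg : g ≠ 0) :
    ∃ c : Fin n → ℕ, eval (fun i => (c i : S)) g ≠ 0 := by
  classical
  by_contra hcon
  push Not at hcon
  apply hg
  apply MvPolynomial.eq_zero_of_eval_zero_at_prod_finset g
    (fun i => (Finset.range (g.degreeOf i + 1)).image (fun k : ℕ => (k : S)))
  · intro i
    rw [Finset.card_image_of_injective _ Nat.cast_injective, Finset.card_range]
    exact Nat.lt_succ_self _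
  · intro x hx
    have hv : ∀ i : Fin n, ∃ k : ℕ, (k : S) = x i := by
      intro i
      have := hx i
      rw [Finset.mem_image] at this
      obtain ⟨k, _, hk⟩ := this
      exact ⟨k, hk⟩
    choose c hc using hv
    have h1 : x = fun i => (c i : S) := by
      funext i
      exact (hc i).symm
    rw [h1]
    exact hcon c

end kill

section sylvester

variable {R : Type*} [CommRing R] {N k : Type*} [Fintype N] [DecidableEq N] [Fintype k]
  [DecidableEq k]

theorem det_smul_one_add_comm (d : R) (A : Matrix N k R) (B : Matrix k N R) :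
    d ^ Fintype.card k * (d • (1 : Matrix N N R) + A * B).det =
      d ^ Fintype.card N * (d • (1 : Matrix k k R) + B * A).det := by
  have h := congrArg (Polynomial.eval d) (Matrix.charpoly_mul_comm' (-A) B)
  rw [Polynomial.eval_mul, Polynomial.eval_mul, Polynomial.eval_pow, Polynomial.eval_pow,
    Polynomial.eval_X, Matrix.eval_charpoly, Matrix.eval_charpoly] at h
  have e1 : Matrix.scalar N d - -A * B = d • (1 : Matrix N N R) + A * B := by
    rw [Matrix.neg_mul, sub_neg_eq_add, Matrix.scalar_apply, Matrix.smul_one_eq_diagonal]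
  have e2 : Matrix.scalar k d - B * -A = d • (1 : Matrix k k R) + B * A := by
    rw [Matrix.mul_neg, sub_neg_eq_add, Matrix.scalar_apply, Matrix.smul_one_eq_diagonal]
  rw [e1, e2] at h
  exact h

/-- the key identity -/
theorem det_perturb [IsDomain R] (M : Matrix N N R) (U : Matrix N k R) (Y : Matrix k N R)
    (hd : M.det ≠ 0) :
    M.det ^ Fintype.card k * (M + U * Y).det =
      M.det * (M.det • (1 : Matrix k k R) + Y * (M.adjugate * U)).det := by
  have h1 : (M.adjugate).det * (M + U * Y).det =
      (M.det • (1 : Matrix N N R) + (M.adjugate * U) * Y).det := by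
    rw [← Matrix.det_mul, Matrix.mul_add, Matrix.adjugate_mul, Matrix.mul_assoc]
  have h2 := det_smul_one_add_comm M.det (M.adjugate * U) Y
  rw [← h1, Matrix.det_adjugate] at h2
  rcases Nat.eq_zero_or_pos (Fintype.card N) with h0 | h0
  · have : IsEmpty N := Fintype.card_eq_zero_iff.1 h0
    have h3 : M.det = 1 := Matrix.det_isEmpty
    rw [h3] at h2 ⊢
    simpa using h2
  · obtain ⟨p, hp⟩ := Nat.exists_eq_add_of_le' h0
    have h3 : M.det ^ p ≠ 0 := pow_ne_zero _ hd
    rw [hp, Nat.succ_sub_one] at h2
    apply mul_left_cancel₀ h3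
    calc M.det ^ p * (M.det ^ Fintype.card k * (M + U * Y).det)
        = M.det ^ Fintype.card k * (M.det ^ p * (M + U * Y).det) := by ring
      _ = M.det ^ (p + 1) * (M.det • (1 : Matrix k k R) + Y * (M.adjugate * U)).det := h2
      _ = _ := by ring

end sylvester

section par

variable {F : Type*} [Field F] {S : Type*} [CommRing S] [Algebra F S] {n : ℕ}

/-- the coefficients of `g` are killed by all derivations which kill `q` suitable elements -/
def Par (F : Type*) [Field F] {S : Type*} [CommRing S] [Algebra F S] {n : ℕ} (q : ℕ)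
    (g : MvPolynomial (Fin n) S) : Prop :=
  ∃ T : Finset S, T.card ≤ q ∧ ∀ D : Derivation F S S, (∀ x ∈ T, D x = 0) → g ∈ Kc n D

theorem Par.mono {q q' : ℕ} {g : MvPolynomial (Fin n) S} (h : Par F q g) (hq : q ≤ q') :
    Par F q' g := by
  obtain ⟨T, h1, h2⟩ := h
  exact ⟨T, h1.trans hq, h2⟩

/-- compressed form with `r` occurrences of the variables -/
def Cmp (F : Type*) [Field F] {S : Type*} [CommRing S] [Algebra F S] {n : ℕ} (r : ℕ)
    (f : MvPolynomial (Fin n) S) : Prop :=
  (∃ b : S, f = C b) ∨
  (1 ≤ r ∧ ∃ (α β : S) (g : MvPolynomial (Fin n) S), Par F (2 * (r ^ 2 - 1)) g ∧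
    f = C α * g + C β)

theorem Cmp.mono {r r' : ℕ} {f : MvPolynomial (Fin n) S} (h : Cmp F r f) (hr : r ≤ r') :
    Cmp F r' f := by
  rcases h with h | ⟨h1, α, β, g, h2, h3⟩
  · exact Or.inl h
  · refine Or.inr ⟨h1.trans hr, α, β, g, h2.mono ?_, h3⟩
    have := Nat.pow_le_pow_left hr 2
    omega

theorem Cmp.par {r : ℕ} {f : MvPolynomial (Fin n) S} (h : Cmp F r f) : Par F (2 * r ^ 2 + 1) f := by
  classical
  rcases h with ⟨b, rfl⟩ | ⟨h1, α, β, g, ⟨T, hT, hT'⟩, rfl⟩
  · refine ⟨{b}, by simp, fun D hD => C_mem_Kc (hD b (by simp))⟩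
  · refine ⟨T ∪ {α, β}, ?_, fun D hD => ?_⟩
    · have e1 := Finset.card_union_le T {α, β}
      have e2 : ({α, β} : Finset S).card ≤ 2 := Finset.card_le_two
      have e3 : 1 ≤ r ^ 2 := Nat.one_le_pow _ _ h1
      omega
    · refine Subring.add_mem _ (Subring.mul_mem _ (C_mem_Kc (hD α (by simp))) ?_)
        (C_mem_Kc (hD β (by simp)))
      exact hT' D fun x hx => hD x (by simp [hx])

theorem sum_sq_ineq {ι : Type*} [DecidableEq ι] (A : Finset ι) (r : ι → ℕ) (h : ∀ a ∈ A, 1 ≤ r a) :
    ∑ a ∈ A, (r a) ^ 2 + A.card * (A.card - 1) ≤ (∑ a ∈ A, r a) ^ 2 := by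
  induction A using Finset.induction_on with
  | empty => simp
  | insert i A hi ih =>
    rw [Finset.sum_insert hi, Finset.sum_insert hi, Finset.card_insert_of_notMem hi]
    have h1 := ih fun a ha => h a (Finset.mem_insert_of_mem ha)
    have h2 := h i (Finset.mem_insert_self _ _)
    have h3 : A.card ≤ ∑ a ∈ A, r a := by
      rw [Finset.card_eq_sum_ones]
      exact Finset.sum_le_sum fun a ha => h a (Finset.mem_insert_of_mem ha)
    have h4 : A.card ≤ r i * ∑ a ∈ A, r a := by nlinarith
    have h5 : (A.card + 1) * (A.card + 1 - 1) = A.card * (A.card - 1) + 2 * A.card := by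
      rcases Nat.eq_zero_or_pos A.card with h0 | h0
      · rw [h0]
      · obtain ⟨p, hp⟩ := Nat.exists_eq_add_of_le' h0
        rw [hp]
        simp only [Nat.add_sub_cancel]
        ring
    nlinarith

end par

section gate

variable {F : Type*} [Field F] {S : Type*} [CommRing S] [IsDomain S] [CharZero S] [Algebra F S]
  {n : ℕ}

theorem gate {N m : ℕ} (A : Matrix (Fin N) (Fin N) F) (U : Matrix (Fin N) (Fin m) F)
    (W : Matrix (Fin m) (Fin N) F) (e : Fin m → MvPolynomial (Fin n) S) (r : Fin m → ℕ)
    (he : ∀ a, Cmp F (r a) (e a)) :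
    Cmp F (∑ a, r a) (Matrix.det (A.map (algebraMap F (MvPolynomial (Fin n) S)) +
      U.map (algebraMap F (MvPolynomial (Fin n) S)) * Matrix.diagonal e *
        W.map (algebraMap F (MvPolynomial (Fin n) S)))) := by
  classical
  set ι := algebraMap F (MvPolynomial (Fin n) S) with hι
  set f := Matrix.det (A.map ι + U.map ι * Matrix.diagonal e * W.map ι) with hf
  by_cases hf0 : f = 0
  · exact Or.inl ⟨0, by rw [hf0, map_zero]⟩
  obtain ⟨c, hc⟩ := exists_eval_ne hf0
  set ev : MvPolynomial (Fin n) S →+* S := eval (fun i => (c i : S)) with hev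
  have hιC : ∀ x : F, ι x = C (algebraMap F S x) := by
    intro x
    rw [hι, IsScalarTower.algebraMap_apply F S (MvPolynomial (Fin n) S), algebraMap_eq]
  -- the matrix at the point
  set Nc : Matrix (Fin N) (Fin N) S := A.map (algebraMap F S) +
    U.map (algebraMap F S) * Matrix.diagonal (fun a => ev (e a)) * W.map (algebraMap F S) with hNc
  have hδ : ev f = Nc.det := by
    rw [hf, RingHom.map_det]
    congr 1
    rw [RingHom.mapMatrix_apply, Matrix.map_add _ (by simp), Matrix.map_mul, Matrix.map_mul,
      Matrix.map_map, Matrix.map_map, Matrix.map_map, Matrix.diagonal_map (by simp), hNc]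
    have h1 : (ev : MvPolynomial (Fin n) S → S) ∘ ι = algebraMap F S := by
      funext x
      rw [Function.comp_apply, hιC, hev, eval_C]
    rw [h1]
  set δ := Nc.det with hδdef
  have hδ0 : δ ≠ 0 := by rw [← hδ]; exact hc
  -- the alive children
  set L : Finset (Fin m) := Finset.univ.filter (fun a => ¬ ∃ b : S, e a = C b) with hL
  have hdead : ∀ a, a ∉ L → e a = C (ev (e a)) := by
    intro a ha
    have h1 : ∃ b : S, e a = C b := by
      by_contra h
      exact ha (Finset.mem_filter.2 ⟨Finset.mem_univ _, h⟩)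
    obtain ⟨b, hb⟩ := h1
    rw [hb, hev, eval_C]
  have halive : ∀ a ∈ L, 1 ≤ r a ∧ ∃ (α β : S) (g : MvPolynomial (Fin n) S),
      Par F (2 * ((r a) ^ 2 - 1)) g ∧ e a = C α * g + C β := by
    intro a ha
    rcases he a with h | h
    · exact absurd h (Finset.mem_filter.1 ha).2
    · exact h
  choose! hr1 α β g hg heg using halive
  -- the identity
  set h : L → MvPolynomial (Fin n) S := fun a => e a - C (ev (e a)) with hh
  set UL : Matrix (Fin N) L S := fun i a => algebraMap F S (U i a) with hUL
  set WL : Matrix L (Fin N) S := fun a j => algebraMap F S (W a j) with hWL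
  set P : Matrix L L S := WL * (Nc.adjugate * UL) with hP
  have hsplit : A.map ι + U.map ι * Matrix.diagonal e * W.map ι =
      Nc.map (C : S → MvPolynomial (Fin n) S) + UL.map (C : S → MvPolynomial (Fin n) S) *
        (Matrix.diagonal h * WL.map (C : S → MvPolynomial (Fin n) S)) := by
    ext1 i j
    have e1 : (U.map ι * Matrix.diagonal e * W.map ι) i j = ∑ a, ι (U i a) * e a * ι (W a j) := by
      rw [Matrix.mul_apply]
      apply Finset.sum_congr rfl
      intro a _
      rw [Matrix.mul_diagonal, Matrix.map_apply, Matrix.map_apply]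
    have e2 : (U.map (algebraMap F S) * Matrix.diagonal (fun a => ev (e a)) *
        W.map (algebraMap F S)) i j =
        ∑ a, algebraMap F S (U i a) * ev (e a) * algebraMap F S (W a j) := by
      rw [Matrix.mul_apply]
      apply Finset.sum_congr rfl
      intro a _
      rw [Matrix.mul_diagonal, Matrix.map_apply, Matrix.map_apply]
    have e3 : (UL.map (C : S → MvPolynomial (Fin n) S) *
        (Matrix.diagonal h * WL.map (C : S → MvPolynomial (Fin n) S))) i j =
        ∑ a : L, ι (U i a) * (e a - C (ev (e a))) * ι (W a j) := by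
      rw [Matrix.mul_apply]
      apply Finset.sum_congr rfl
      intro a _
      rw [Matrix.diagonal_mul, Matrix.map_apply, Matrix.map_apply, hιC, hιC, hUL, hWL, hh]
      ring
    rw [Matrix.add_apply, Matrix.add_apply, e1, e3, Matrix.map_apply, Matrix.map_apply, hNc,
      Matrix.add_apply, e2, Matrix.map_apply, map_add, ← hιC, map_sum, add_assoc]
    congr 1
    have e4 : ∑ a : L, ι (U i a) * (e a - C (ev (e a))) * ι (W a j) =
        ∑ a, ι (U i a) * (e a - C (ev (e a))) * ι (W a j) := by
      rw [Finset.sum_coe_sort L (fun a => ι (U i a) * (e a - C (ev (e a))) * ι (W a j))]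
      apply Finset.sum_subset (Finset.subset_univ _)
      intro a _ ha
      rw [← hdead a ha, sub_self, mul_zero, zero_mul]
    rw [e4, ← Finset.sum_add_distrib]
    apply Finset.sum_congr rfl
    intro a _
    rw [map_mul, map_mul, ← hιC, ← hιC]
    ring
  have hdetC : (Nc.map (C : S → MvPolynomial (Fin n) S)).det = C δ := by
    rw [hδdef, RingHom.map_det]
    rfl
  have hadjC : (Nc.map (C : S → MvPolynomial (Fin n) S)).adjugate =
      Nc.adjugate.map (C : S → MvPolynomial (Fin n) S) := by
    have := RingHom.map_adjugate (C : S →+* MvPolynomial (Fin n) S) Nc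
    rw [RingHom.mapMatrix_apply, RingHom.mapMatrix_apply] at this
    exact this.symm
  obtain ⟨Q, hQ⟩ : ∃ Q : Matrix L L (MvPolynomial (Fin n) S), ∀ a b, Q a b =
      (if a = b then C δ else 0) + h a * C (P a b) := ⟨Matrix.of fun a b => _, fun a b => rfl⟩
  have hkey : (C δ : MvPolynomial (Fin n) S) ^ L.card * f = C δ * Q.det := by
    have h1 := det_perturb (Nc.map (C : S → MvPolynomial (Fin n) S))
      (UL.map (C : S → MvPolynomial (Fin n) S))
      (Matrix.diagonal h * WL.map (C : S → MvPolynomial (Fin n) S))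
      (by rw [hdetC]; simpa using hδ0)
    rw [hdetC, ← hsplit, ← hf, Fintype.card_coe] at h1
    rw [h1]
    congr 2
    ext1 a b
    rw [hQ, Matrix.add_apply, Matrix.smul_apply, Matrix.one_apply, hadjC, ← Matrix.map_mul,
      Matrix.mul_assoc, ← Matrix.map_mul, Matrix.diagonal_mul, Matrix.map_apply, hP]
    congr 1
    split_ifs <;> simp
  have hha : ∀ a : L, h a = C (α a) * (g a - C (ev (g a))) := by
    intro a
    rw [hh]
    simp only
    have e1 := heg a a.2
    have e2 : ev (e a) = α a * ev (g a) + β a := by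
      rw [e1, map_add, map_mul, hev, eval_C, eval_C]
    rw [e2, e1, map_add, map_mul]
    ring
  have hrsum : ∑ a ∈ L, r a ≤ ∑ a, r a := Finset.sum_le_sum_of_subset (Finset.subset_univ _)
  rcases Nat.lt_or_ge L.card 2 with hk | hk
  · rcases Nat.lt_or_ge L.card 1 with hk0 | hk0
    · -- no alive children
      have hL0 : L.card = 0 := by omega
      left
      refine ⟨δ, ?_⟩
      have hemp : IsEmpty L := Finset.isEmpty_coe_sort.2 (Finset.card_eq_zero.1 hL0)
      rw [hL0, pow_zero, one_mul, Matrix.det_isEmpty, mul_one] at hkey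
      exact hkey
    · -- one alive child
      have hk1 : L.card = 1 := by omega
      obtain ⟨a0, ha0⟩ := Finset.card_eq_one.1 hk1
      have ha0L : a0 ∈ L := by rw [ha0]; simp
      right
      have hr0 := hr1 a0 ha0L
      have hra : r a0 ≤ ∑ a, r a := by
        refine le_trans ?_ hrsum
        rw [ha0, Finset.sum_singleton]
      refine ⟨hr0.trans hra, P ⟨a0, ha0L⟩ ⟨a0, ha0L⟩ * α a0,
        δ - P ⟨a0, ha0L⟩ ⟨a0, ha0L⟩ * α a0 * ev (g a0), g a0, (hg a0 ha0L).mono ?_, ?_⟩
      · have := Nat.pow_le_pow_left hra 2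
        omega
      · have hCδ : (C δ : MvPolynomial (Fin n) S) ≠ 0 := by simpa using hδ0
        rw [hk1, pow_one] at hkey
        have h2 := mul_left_cancel₀ hCδ hkey
        have huniq : ∀ a : L, a = ⟨a0, ha0L⟩ := by
          intro a
          apply Subtype.ext
          have h3 : ∀ x ∈ L, x = a0 := by
            intro x hx
            rw [ha0] at hx
            exact Finset.mem_singleton.1 hx
          exact h3 a a.2
        have : Unique L := ⟨⟨⟨a0, ha0L⟩⟩, huniq⟩
        rw [h2, Matrix.det_unique]
        have hdef : (default : L) = ⟨a0, ha0L⟩ := huniq _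
        rw [hdef, hQ, if_pos rfl, hha]
        simp only [map_mul, map_sub]
        ring
  · -- at least two alive children
    right
    have hcardle : L.card ≤ ∑ a ∈ L, r a := by
      rw [Finset.card_eq_sum_ones]
      exact Finset.sum_le_sum fun a ha => hr1 a ha
    refine ⟨by omega, 1, 0, f, ?_, by rw [map_one, map_zero, one_mul, add_zero]⟩
    choose! T hT1 hT2 using hg
    refine ⟨({δ} ∪ (Finset.univ : Finset (L × L)).image (fun p => α p.1 * P p.1 p.2)) ∪
      L.biUnion T, ?_, ?_⟩
    · have c1 := Finset.card_union_le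
        ({δ} ∪ (Finset.univ : Finset (L × L)).image (fun p => α p.1 * P p.1 p.2)) (L.biUnion T)
      have c2 := Finset.card_union_le ({δ} : Finset S)
        ((Finset.univ : Finset (L × L)).image (fun p => α p.1 * P p.1 p.2))
      have c3 : ((Finset.univ : Finset (L × L)).image (fun p => α p.1 * P p.1 p.2)).card ≤
          L.card * L.card := by
        refine Finset.card_image_le.trans ?_
        rw [Finset.card_univ, Fintype.card_prod, Fintype.card_coe]
      have c4 : (L.biUnion T).card ≤ ∑ a ∈ L, 2 * ((r a) ^ 2 - 1) := by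
        refine Finset.card_biUnion_le.trans (Finset.sum_le_sum fun a ha => hT1 a ha)
      have c5 : ∑ a ∈ L, 2 * ((r a) ^ 2 - 1) + 2 * L.card = 2 * ∑ a ∈ L, (r a) ^ 2 := by
        have : 2 * L.card = ∑ a ∈ L, 2 := by rw [Finset.sum_const, smul_eq_mul, mul_comm]
        rw [this, ← Finset.sum_add_distrib, Finset.mul_sum]
        apply Finset.sum_congr rfl
        intro a ha
        have : 1 ≤ (r a) ^ 2 := Nat.one_le_pow _ _ (hr1 a ha)
        omega
      have c6 := sum_sq_ineq L r hr1
      have c7 : (∑ a ∈ L, r a) ^ 2 ≤ (∑ a, r a) ^ 2 := Nat.pow_le_pow_left hrsum 2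
      have c8 : ({δ} : Finset S).card = 1 := Finset.card_singleton _
      have c9 : L.card * (L.card - 1) + L.card = L.card * L.card := by
        obtain ⟨p, hp⟩ := Nat.exists_eq_add_of_le' (show 1 ≤ L.card by omega)
        rw [hp]
        simp only [Nat.add_sub_cancel]
        ring
      have c10 : 4 ≤ L.card * L.card := Nat.mul_le_mul hk hk
      have c11 : 1 ≤ (∑ a, r a) ^ 2 := Nat.one_le_pow _ _ (by omega)
      omega
    · intro D hD
      have d1 : D δ = 0 := hD δ (by simp)
      have d2 : ∀ a b : L, D (α a * P a b) = 0 := by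
        intro a b
        apply hD
        rw [Finset.mem_union, Finset.mem_union]
        exact Or.inl (Or.inr (Finset.mem_image.2 ⟨(a, b), Finset.mem_univ _, rfl⟩))
      have d3 : ∀ a ∈ L, g a ∈ Kc n D := by
        intro a ha
        apply hT2 a ha
        intro x hx
        apply hD
        rw [Finset.mem_union]
        exact Or.inr (Finset.mem_biUnion.2 ⟨a, ha, hx⟩)
      have hδk : D (δ ^ L.card) = 0 := by
        rw [Derivation.leibniz_pow, d1, smul_zero, smul_zero]
      apply cancel_Kc hδk (pow_ne_zero _ hδ0)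
      rw [map_pow, hkey]
      refine Subring.mul_mem _ (C_mem_Kc d1) (det_mem _ _ fun a b => ?_)
      rw [hQ]
      refine Subring.add_mem _ ?_ ?_
      · split_ifs
        · exact C_mem_Kc d1
        · exact Subring.zero_mem _
      · have e1 : h a * C (P a b) = (g a - C (ev (g a))) * C (α a * P a b) := by
          rw [hha, map_mul]
          ring
        rw [e1]
        refine Subring.mul_mem _ (Subring.sub_mem _ (d3 a a.2) (C_mem_Kc ?_)) (C_mem_Kc (d2 a b))
        exact eval_Kc (d3 a a.2) c

end gate

end Pool.Agent.H532R2.DT
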