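import Mathlib
import Pool.Agent.H530R2.Ext
import Pool.Agent.H532R2.DT.Kill

/-!
Extraction for polynomials with few parameters.
-/

namespace Pool.Agent.H532R2.DT

open Polynomial Pool.Agent.H530R2

variable {F : Type*} [Field F]

/-- **Extraction.** A nonzero polynomial with `q` parameters in the variables of `V` does not
vanish when the variables are replaced by `∑_k y_k u^((j+1)k)`, if `q + |V| ≤ ℓ`. -/
theorem extraction2 {S : Type*} [CommRing S] [IsDomain S] [CharZero S] [Algebra F S] {n ℓ q : ℕ}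
    (pd : Fin ℓ → Derivation F S S) (y : Fin ℓ → S)
    (hpd : ∀ k k', pd k (y k') = if k = k' then 1 else 0)
    (V : Finset (Fin n)) (g : MvPolynomial (Fin n) S) (hg : Par F q g)
    (hV : g.vars ⊆ V) (hg0 : g ≠ 0) (hcard : q + V.card ≤ ℓ) :
    MvPolynomial.aeval (fun j : Fin n =>
      (∑ k : Fin ℓ, C (y k) * X ^ (((j : ℕ) + 1) * (k : ℕ)) : S[X])) g ≠ 0 := by
  classical
  obtain ⟨T, hT, hTg⟩ := hg
  obtain ⟨P, hP, hPv⟩ := pivots (S := S) (ℓ := ℓ) (ι := T) (fun k i => pd k (i : S))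
  rw [Fintype.card_coe] at hP
  choose! v hv1 hv2 hv3 using hPv
  obtain ⟨D, hDapp⟩ : ∃ D : Fin ℓ → Derivation F S S, ∀ k x, D k x = ∑ k', v k k' * pd k' x := by
    refine ⟨fun k => ∑ k', v k k' • pd k', fun k x => ?_⟩
    rw [der_sum_apply]
    rfl
  have hDy : ∀ k k', D k (y k') = v k k' := by
    intro k k'
    rw [hDapp, Finset.sum_eq_single k']
    · rw [hpd, if_pos rfl, mul_one]
    · intro b _ hb
      rw [hpd, if_neg hb, mul_zero]
    · simp
  have hDg : ∀ k ∈ P, ∀ m, D k (MvPolynomial.coeff m g) = 0 := by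
    intro k hk
    apply mem_Kc.1
    apply hTg
    intro x hx
    rw [hDapp]
    exact hv3 k hk ⟨x, hx⟩
  obtain ⟨R0, hR0⟩ : ∃ R0 : Subalgebra F S, ∀ r, r ∈ R0 ↔ ∀ k ∈ P, D k r = 0 := by
    refine ⟨{
      carrier := {r | ∀ k ∈ P, D k r = 0}
      mul_mem' := fun {a b} ha hb k hk => by
        rw [Derivation.leibniz, ha k hk, hb k hk, smul_zero, smul_zero, add_zero]
      add_mem' := fun {a b} ha hb k hk => by
        rw [map_add, ha k hk, hb k hk, add_zero]
      algebraMap_mem' := fun r k _ => Derivation.map_algebraMap _ _ }, fun r => Iff.rfl⟩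
  obtain ⟨A, hA⟩ : ∃ A : MvPolynomial (Fin n) R0, MvPolynomial.map (algebraMap R0 S) A = g := by
    refine ⟨∑ m ∈ g.support, MvPolynomial.monomial m
      (⟨MvPolynomial.coeff m g, (hR0 _).2 fun k hk => hDg k hk m⟩ : R0), ?_⟩
    rw [map_sum]
    conv_rhs => rw [← MvPolynomial.support_sum_monomial_coeff g]
    apply Finset.sum_congr rfl
    intro m _
    rw [MvPolynomial.map_monomial]
    rfl
  have hinj0 : Function.Injective (algebraMap R0 S) := Subtype.val_injective
  have hA0 : A ≠ 0 := by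
    rintro rfl
    rw [map_zero] at hA
    exact hg0 hA.symm
  have hAV : A.vars ⊆ V := by
    rw [← hA, MvPolynomial.vars_map_of_injective _ hinj0] at hV
    exact hV
  obtain ⟨E, hE⟩ : ∃ E : Fin n → S[X], ∀ j, E j =
    ∑ k : Fin ℓ, C (y k) * X ^ (((j : ℕ) + 1) * (k : ℕ)) := ⟨_, fun _ => rfl⟩
  have hθA : MvPolynomial.aeval (fun j : Fin n =>
      (∑ k : Fin ℓ, C (y k) * X ^ (((j : ℕ) + 1) * (k : ℕ)) : S[X])) g =
      MvPolynomial.aeval E A := by
    have h1 : (fun j : Fin n =>
      (∑ k : Fin ℓ, C (y k) * X ^ (((j : ℕ) + 1) * (k : ℕ)) : S[X])) = E := by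
      funext j
      exact (hE j).symm
    rw [h1, ← hA, MvPolynomial.aeval_map_algebraMap]
  rw [hθA]
  have hinj1 : Function.Injective (algebraMap R0 S[X]) := by
    rw [IsScalarTower.algebraMap_eq R0 S S[X]]
    exact (C_injective).comp hinj0
  refine aeval_ne_zero_of_der (K := F) hinj1 (fun k : P => mapD (D k)) ?_ E V ?_ A.totalDegree A
    le_rfl hAV hA0
  · intro k r
    have h1 : algebraMap R0 S[X] r = C (r : S) := rfl
    rw [h1, mapD_C, (hR0 _).1 r.2 k k.2, map_zero]
  · intro w hw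
    refine tropical P V (fun k => (k : ℕ)) (fun j => (j : ℕ) + 1) ?_ ?_ (by omega) w
      (fun k j => mapD (D k) (E j)) ?_ ?_
    · intro k _ k' _ h
      exact Fin.ext h
    · intro j _ j' _ h
      exact Fin.ext (by simpa using h)
    · intro k hk j _
      have h1 : mapD (D k) (E j) =
          ∑ k' : Fin ℓ, C (v k k') * X ^ (((j : ℕ) + 1) * (k' : ℕ)) := by
        rw [hE, map_sum]
        apply Finset.sum_congr rfl
        intro k' _
        rw [mapD_C_mul_X_pow, hDy]
      rw [h1]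
      exact natDegree_lacunary (v k) ((j : ℕ) + 1) (by omega) k (hv1 k hk) (hv2 k hk)
    · intro k hk
      exact hw ⟨k, hk⟩

end Pool.Agent.H532R2.DT
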