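import Mathlib
import Pool.Agent.H530R2.Sub
import Pool.Agent.H532R2.DT.Ext2

/-!
Formulas with determinant gates.
-/

namespace Pool.Agent.H532R2.DT

open MvPolynomial Pool.Agent.H530R2

section

variable {F : Type*} [Field F] {n : ℕ}

/-- `f` is computed by a formula with determinant gates in which variable `i` occurs `w i` times -/
inductive Dm : (Fin n → ℕ) → MvPolynomial (Fin n) F → Prop
  | var (i : Fin n) : Dm (Pi.single i 1) (X i)
  | const (c : F) : Dm 0 (C c)
  | det {N m : ℕ} (A : Matrix (Fin N) (Fin N) F) (U : Matrix (Fin N) (Fin m) F)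
      (W : Matrix (Fin m) (Fin N) F) (w : Fin m → Fin n → ℕ) (f : Fin m → MvPolynomial (Fin n) F)
      (h : ∀ a, Dm (w a) (f a)) :
      Dm (∑ a, w a) (Matrix.det (A.map (C : F → MvPolynomial (Fin n) F) +
        U.map (C : F → MvPolynomial (Fin n) F) * Matrix.diagonal f *
          W.map (C : F → MvPolynomial (Fin n) F)))

theorem det_mem_sub {R : Type*} [CommRing R] [Algebra F R] {k : Type*} [Fintype k] [DecidableEq k]
    (T : Subalgebra F R) (M : Matrix k k R) (hM : ∀ i j, M i j ∈ T) : M.det ∈ T := by
  rw [Matrix.det_apply']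
  refine Subalgebra.sum_mem _ fun σ _ => Subalgebra.mul_mem _ ?_
    (Subalgebra.prod_mem _ fun i _ => hM _ _)
  exact intCast_mem T _

theorem Dm.supp {w : Fin n → ℕ} {f : MvPolynomial (Fin n) F} (h : Dm w f) :
    f ∈ supported F {i | w i ≠ 0} := by
  induction h with
  | var i => exact X_mem_supported.2 (by simp)
  | const c => exact Subalgebra.algebraMap_mem _ c
  | @det N m A U W w f _ ih =>
    have h1 : ∀ a, f a ∈ supported F {i | (∑ a, w a) i ≠ 0} := by
      intro a
      refine supported_mono ?_ (ih a)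
      intro i hi
      simp only [Set.mem_ofPred_eq, Finset.sum_apply] at hi ⊢
      have := Finset.single_le_sum (f := fun a => w a i) (fun _ _ => Nat.zero_le _)
        (Finset.mem_univ a)
      have h2 : w a i ≤ ∑ a, w a i := this
      omega
    apply det_mem_sub
    intro i j
    rw [Matrix.add_apply, Matrix.mul_apply]
    refine Subalgebra.add_mem _ (Subalgebra.algebraMap_mem _ _) (Subalgebra.sum_mem _ fun a _ => ?_)
    rw [Matrix.mul_diagonal]
    exact Subalgebra.mul_mem _ (Subalgebra.mul_mem _ (Subalgebra.algebraMap_mem _ _) (h1 a))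
      (Subalgebra.algebraMap_mem _ _)

theorem totalDegree_det_le {k : Type*} [Fintype k] [DecidableEq k]
    (M : Matrix k k (MvPolynomial (Fin n) F)) (d : k → ℕ)
    (h : ∀ i j, (M i j).totalDegree ≤ d j) : M.det.totalDegree ≤ ∑ j, d j := by
  rw [Matrix.det_apply']
  refine (totalDegree_finsetSum _ _).trans (Finset.sup_le fun σ _ => ?_)
  refine (totalDegree_mul _ _).trans ?_
  have h1 : (((Equiv.Perm.sign σ : ℤ) : MvPolynomial (Fin n) F)).totalDegree = 0 := by
    have : (((Equiv.Perm.sign σ : ℤ) : MvPolynomial (Fin n) F)) =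
        C (((Equiv.Perm.sign σ : ℤ) : F)) := by simp
    rw [this, totalDegree_C]
  rw [h1, zero_add]
  refine (totalDegree_finsetProd _ _).trans (Finset.sum_le_sum fun j _ => h _ _)

theorem Dm.totalDegree_le {w : Fin n → ℕ} {f : MvPolynomial (Fin n) F} (h : Dm w f) :
    f.totalDegree ≤ ∑ i, w i := by
  induction h with
  | var i => simp [totalDegree_X, Finset.sum_pi_single']
  | const c => simp
  | @det N m A U W w f _ ih =>
    have h1 := Matrix.det_fromBlocks_one₂₂ (A.map (C : F → MvPolynomial (Fin n) F))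
      (-(U.map (C : F → MvPolynomial (Fin n) F) * Matrix.diagonal f))
      (W.map (C : F → MvPolynomial (Fin n) F))
    rw [Matrix.neg_mul, sub_neg_eq_add] at h1
    rw [← h1]
    have h2 := totalDegree_det_le (Matrix.fromBlocks (A.map (C : F → MvPolynomial (Fin n) F))
      (-(U.map (C : F → MvPolynomial (Fin n) F) * Matrix.diagonal f))
      (W.map (C : F → MvPolynomial (Fin n) F)) 1)
      (Sum.elim (fun _ => 0) (fun a => ∑ i, w a i)) (by
        rintro (i | b) (j | a)
        · rw [Matrix.fromBlocks_apply₁₁, Matrix.map_apply, totalDegree_C]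
          exact Nat.zero_le _
        · rw [Matrix.fromBlocks_apply₁₂, Matrix.neg_apply, totalDegree_neg, Matrix.mul_diagonal,
            Matrix.map_apply]
          refine (totalDegree_mul _ _).trans ?_
          rw [totalDegree_C, zero_add]
          exact ih a
        · rw [Matrix.fromBlocks_apply₂₁, Matrix.map_apply, totalDegree_C]
          exact Nat.zero_le _
        · rw [Matrix.fromBlocks_apply₂₂, Matrix.one_apply]
          split_ifs <;> simp)
    refine h2.trans (le_of_eq ?_)
    simp only [Fintype.sum_sum_type, Sum.elim_inl, Sum.elim_inr, Finset.sum_const_zero, zero_add,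
      Finset.sum_apply]
    exact Finset.sum_comm

theorem Dm.cmp {S : Type*} [CommRing S] [IsDomain S] [CharZero S] [Algebra F S]
    {w : Fin n → ℕ} {f : MvPolynomial (Fin n) F} (h : Dm w f)
    (V : Finset (Fin n)) (s : Fin n → S) (ρ : MvPolynomial (Fin n) F →ₐ[F] MvPolynomial (Fin n) S)
    (hρ1 : ∀ j ∈ V, ρ (X j) = X j) (hρ2 : ∀ j ∉ V, ρ (X j) = C (s j)) :
    Cmp F (∑ i ∈ V, w i) (ρ f) := by
  classical
  induction h with
  | var i =>
    by_cases hi : i ∈ V
    · rw [hρ1 i hi, Finset.sum_pi_single', if_pos hi]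
      exact Or.inr ⟨le_rfl, 1, 0, X i, ⟨∅, by simp, fun D _ => X_mem_Kc D i⟩, by simp⟩
    · rw [hρ2 i hi]
      exact Or.inl ⟨_, rfl⟩
  | const c =>
    refine Or.inl ⟨algebraMap F S c, ?_⟩
    have h1 : (C c : MvPolynomial (Fin n) F) = algebraMap F _ c := rfl
    rw [h1, AlgHom.commutes, IsScalarTower.algebraMap_apply F S (MvPolynomial (Fin n) S),
      algebraMap_eq]
  | @det N m A U W w f _ ih =>
    have h1 := gate A U W (fun a => ρ (f a)) (fun a => ∑ i ∈ V, w a i) ih
    have h2 : ∑ i ∈ V, (∑ a, w a) i = ∑ a, ∑ i ∈ V, w a i := by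
      simp only [Finset.sum_apply]
      exact Finset.sum_comm
    rw [h2]
    have h3 : ρ (Matrix.det (A.map (C : F → MvPolynomial (Fin n) F) +
        U.map (C : F → MvPolynomial (Fin n) F) * Matrix.diagonal f *
          W.map (C : F → MvPolynomial (Fin n) F))) =
        Matrix.det (A.map (algebraMap F (MvPolynomial (Fin n) S)) +
      U.map (algebraMap F (MvPolynomial (Fin n) S)) * Matrix.diagonal (fun a => ρ (f a)) *
        W.map (algebraMap F (MvPolynomial (Fin n) S))) := by
      rw [AlgHom.map_det]
      congr 1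
      have h4 : ∀ x : F, ρ (C x) = algebraMap F (MvPolynomial (Fin n) S) x := by
        intro x
        have h5 : (C x : MvPolynomial (Fin n) F) = algebraMap F _ x := rfl
        rw [h5, AlgHom.commutes]
      ext1 i j
      rw [AlgHom.mapMatrix_apply, Matrix.map_apply, Matrix.add_apply, Matrix.add_apply, map_add,
        Matrix.mul_apply, Matrix.mul_apply, map_sum, Matrix.map_apply, Matrix.map_apply, h4]
      congr 1
      apply Finset.sum_congr rfl
      intro a _
      rw [Matrix.mul_diagonal, Matrix.mul_diagonal, map_mul, map_mul, Matrix.map_apply,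
        Matrix.map_apply, Matrix.map_apply, Matrix.map_apply, h4, h4]
    rw [h3]
    exact h1

end

end Pool.Agent.H532R2.DT
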