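import Mathlib
import Pool.Agent.H530R2.SubPts
import Pool.Agent.H532R2.DT.Ext2

/-!
Polynomials with few parameters for every small block of variables are not killed by a generator
with few seeds, and have a nonzero value at an explicit integer point.
-/

namespace Pool.Agent.H532R2.DT

open MvPolynomial Pool.Agent.H530R2

section hybrid

variable {F : Type*} [Field F] {n ℓ t : ℕ}

/-- `f` has `q` parameters with respect to every block of variables of weight at most `R` -/
def HasPar (w : Fin n → ℕ) (R q : ℕ) (f : MvPolynomial (Fin n) F)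
    (S : Type*) [CommRing S] [Algebra F S] : Prop :=
  ∀ V : Finset (Fin n), ∑ i ∈ V, w i ≤ R → ∀ (s : Fin n → S)
    (ρ : MvPolynomial (Fin n) F →ₐ[F] MvPolynomial (Fin n) S), (∀ j ∈ V, ρ (X j) = X j) →
    (∀ j ∉ V, ρ (X j) = C (s j)) → Par F q (ρ f)

theorem hyb_step3 [CharZero F] {w : Fin n → ℕ} {f : MvPolynomial (Fin n) F}
    (hsupp : f ∈ supported F {i | w i ≠ 0}) (H : Finset (Fin n)) (bl : Fin n → Fin t) (R q : ℕ)
    (hcap : ∀ c : Fin t, ∑ i ∈ Finset.univ.filter (fun i => i ∉ H ∧ bl i = c), w i ≤ R)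
    (h : HasPar w R q f (MvPolynomial (Fin n ⊕ (Fin ℓ ⊕ Fin t)) F))
    (hℓ : q + R ≤ ℓ) (m : ℕ) (hne : aeval (hybv F ℓ H bl m) f ≠ 0) :
    aeval (hybv F ℓ H bl (m + 1)) f ≠ 0 := by
  classical
  by_cases hm : m < t
  swap
  · have h1 : hybv F ℓ H bl (m + 1) = hybv F ℓ H bl m := by
      funext i
      have h2 : ¬ m ≤ (bl i).val := by have := (bl i).isLt; omega
      have h3 : ¬ (m + 1) ≤ (bl i).val := by omega
      simp only [hybv, h2, h3]
    rwa [h1]
  set c : Fin t := ⟨m, hm⟩ with hc
  set V : Finset (Fin n) := Finset.univ.filter (fun i => (i ∉ H ∧ bl i = c) ∧ w i ≠ 0) with hV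
  have hVw : ∑ i ∈ V, w i ≤ R := by
    refine le_trans ?_ (hcap c)
    apply Finset.sum_le_sum_of_subset
    intro i hi
    rw [hV, Finset.mem_filter] at hi
    rw [Finset.mem_filter]
    exact ⟨hi.1, hi.2.1⟩
  have hVcard : V.card ≤ ∑ i ∈ V, w i := by
    rw [Finset.card_eq_sum_ones]
    apply Finset.sum_le_sum
    intro i hi
    rw [hV, Finset.mem_filter] at hi
    have := hi.2.2
    omega
  set s : Fin n → MvPolynomial (Fin n ⊕ (Fin ℓ ⊕ Fin t)) F := hybv F ℓ H bl m with hs
  set ρ : MvPolynomial (Fin n) F →ₐ[F]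
      MvPolynomial (Fin n) (MvPolynomial (Fin n ⊕ (Fin ℓ ⊕ Fin t)) F) :=
    aeval (fun j => if j ∈ V then X j else C (s j)) with hρ
  have hρ1 : ∀ j ∈ V, ρ (X j) = X j := by
    intro j hj
    rw [hρ, aeval_X, if_pos hj]
  have hρ2 : ∀ j ∉ V, ρ (X j) = C (s j) := by
    intro j hj
    rw [hρ, aeval_X, if_neg hj]
  set θ : MvPolynomial (Fin n) F →ₐ[F] Polynomial (MvPolynomial (Fin n ⊕ (Fin ℓ ⊕ Fin t)) F) :=
    aeval (fun j => if j ∈ V then ∑ k : Fin ℓ, Polynomial.C (X (Sum.inr (Sum.inl k))) *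
      Polynomial.X ^ (((j : ℕ) + 1) * (k : ℕ)) else Polynomial.C (s j)) with hθ
  have hρf : ρ f ≠ 0 := by
    intro h0
    apply hne
    have h1 : ((aeval s : MvPolynomial (Fin n) (MvPolynomial (Fin n ⊕ (Fin ℓ ⊕ Fin t)) F) →ₐ[_]
        MvPolynomial (Fin n ⊕ (Fin ℓ ⊕ Fin t)) F).restrictScalars F).comp ρ = aeval s := by
      apply MvPolynomial.algHom_ext
      intro j
      rw [AlgHom.comp_apply, hρ, aeval_X, aeval_X, AlgHom.restrictScalars_apply]
      split_ifs with hj
      · rw [aeval_X]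
      · rw [aeval_C]; rfl
    rw [← h1, AlgHom.comp_apply, h0, map_zero]
  have hρV : ∀ g, ρ g ∈ MvPolynomial.supported (MvPolynomial (Fin n ⊕ (Fin ℓ ⊕ Fin t)) F)
      (V : Set (Fin n)) := by
    intro g
    induction g using MvPolynomial.induction_on with
    | C a =>
      have h1 : (C a : MvPolynomial (Fin n) F) = algebraMap F _ a := rfl
      rw [h1, AlgHom.commutes, IsScalarTower.algebraMap_apply F
        (MvPolynomial (Fin n ⊕ (Fin ℓ ⊕ Fin t)) F)
        (MvPolynomial (Fin n) (MvPolynomial (Fin n ⊕ (Fin ℓ ⊕ Fin t)) F))]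
      exact Subalgebra.algebraMap_mem _ _
    | add p q hp hq => rw [map_add]; exact Subalgebra.add_mem _ hp hq
    | mul_X p i hp =>
      rw [map_mul]
      refine Subalgebra.mul_mem _ hp ?_
      by_cases hi : i ∈ V
      · rw [hρ1 i hi]
        exact X_mem_supported.2 (by exact_mod_cast hi)
      · rw [hρ2 i hi, ← algebraMap_eq]
        exact Subalgebra.algebraMap_mem _ _
  have hvars : (ρ f).vars ⊆ V := by
    have := hρV f
    rw [MvPolynomial.mem_supported] at this
    exact_mod_cast this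
  have key : θ f ≠ 0 := by
    have h1 := extraction2 (F := F) (S := MvPolynomial (Fin n ⊕ (Fin ℓ ⊕ Fin t)) F)
      (fun k => pderiv (Sum.inr (Sum.inl k))) (fun k => X (Sum.inr (Sum.inl k))) (by
        intro k k'
        by_cases hk : k = k'
        · subst hk
          simp
        · rw [if_neg hk, pderiv_X_of_ne]
          intro hc
          exact hk (by simpa using hc.symm)) V (ρ f)
      (h V hVw s ρ hρ1 hρ2) hvars hρf (by omega)
    have h2 : θ = ((aeval (fun j : Fin n =>
        (∑ k : Fin ℓ, Polynomial.C (X (Sum.inr (Sum.inl k))) *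
          Polynomial.X ^ (((j : ℕ) + 1) * (k : ℕ)) :
          Polynomial (MvPolynomial (Fin n ⊕ (Fin ℓ ⊕ Fin t)) F))) :
        MvPolynomial (Fin n) (MvPolynomial (Fin n ⊕ (Fin ℓ ⊕ Fin t)) F) →ₐ[_] _).restrictScalars
        F).comp ρ := by
      apply MvPolynomial.algHom_ext
      intro j
      rw [AlgHom.comp_apply, hθ, aeval_X]
      by_cases hj : j ∈ V
      · rw [if_pos hj, hρ1 j hj, AlgHom.restrictScalars_apply, aeval_X]
      · rw [if_neg hj, hρ2 j hj, AlgHom.restrictScalars_apply, aeval_C]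
        rfl
    rw [h2, AlgHom.comp_apply]
    exact h1
  intro h0
  apply key
  set ψ : MvPolynomial (Fin n ⊕ (Fin ℓ ⊕ Fin t)) F →ₐ[F]
      Polynomial (MvPolynomial (Fin n ⊕ (Fin ℓ ⊕ Fin t)) F) :=
    aeval (fun x => if x = Sum.inr (Sum.inr c) then Polynomial.X else Polynomial.C (X x)) with hψ
  have hψ1 : ∀ x, x ≠ Sum.inr (Sum.inr c) → ψ (X x) = Polynomial.C (X x) := by
    intro x hx
    rw [hψ, aeval_X, if_neg hx]
  have hψ2 : ψ (X (Sum.inr (Sum.inr c))) = Polynomial.X := by
    rw [hψ, aeval_X, if_pos rfl]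
  have hagree : ∀ g ∈ supported F {i | w i ≠ 0}, θ g = ψ (aeval (hybv F ℓ H bl (m + 1)) g) := by
    intro g hg
    have hg' : g ∈ Algebra.adjoin F (X '' {i | w i ≠ 0} : Set (MvPolynomial (Fin n) F)) := hg
    clear hg
    induction hg' using Algebra.adjoin_induction with
    | mem x hx =>
      obtain ⟨j, hj, rfl⟩ := hx
      have e1 : aeval (hybv F ℓ H bl (m + 1)) (X j : MvPolynomial (Fin n) F) =
        hybv F ℓ H bl (m + 1) j := aeval_X _ _
      have e2 : θ (X j) = if j ∈ V then ∑ k : Fin ℓ, Polynomial.C (X (Sum.inr (Sum.inl k))) *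
        Polynomial.X ^ (((j : ℕ) + 1) * (k : ℕ)) else Polynomial.C (s j) := by
        rw [hθ, aeval_X]
      rw [e1, e2]
      by_cases hjV : j ∈ V
      · rw [if_pos hjV]
        rw [hV, Finset.mem_filter] at hjV
        obtain ⟨_, ⟨hjH, hjc⟩, _⟩ := hjV
        have h2 : ¬ (j ∈ H ∨ m + 1 ≤ (bl j).val) := by
          rintro (h | h)
          · exact hjH h
          · rw [hjc] at h
            simp [hc] at h
        unfold hybv
        rw [if_neg h2, map_sum, hjc]
        apply Finset.sum_congr rfl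
        intro k _
        rw [map_mul, map_pow, hψ2, hψ1 _ (by simp)]
      · rw [if_neg hjV]
        have hjV' : j ∈ H ∨ bl j ≠ c := by
          by_contra hcon
          push Not at hcon
          apply hjV
          rw [hV, Finset.mem_filter]
          exact ⟨Finset.mem_univ _, hcon, hj⟩
        by_cases h2 : j ∈ H ∨ m ≤ (bl j).val
        · have h3 : j ∈ H ∨ m + 1 ≤ (bl j).val := by
            rcases hjV' with h | h
            · exact Or.inl h
            · rcases h2 with h2 | h2
              · exact Or.inl h2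
              · right
                have : (bl j).val ≠ m := fun he => h (Fin.ext he)
                omega
          rw [hs]
          unfold hybv
          rw [if_pos h2, if_pos h3, hψ1 _ (by simp)]
        · have h3 : ¬ (j ∈ H ∨ m + 1 ≤ (bl j).val) := by
            push Not at h2 ⊢
            exact ⟨h2.1, by omega⟩
          rw [hs]
          unfold hybv
          rw [if_neg h2, if_neg h3]
          rw [map_sum, map_sum]
          apply Finset.sum_congr rfl
          intro k _
          have h4 : bl j ≠ c := by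
            push Not at h2
            intro he
            rw [he] at h2
            simp [hc] at h2
          rw [map_mul, map_pow, map_mul, map_pow, hψ1 _ (by simp), hψ1 _ (by simpa using h4)]
    | algebraMap r => rw [AlgHom.commutes, AlgHom.commutes, AlgHom.commutes]
    | add x y _ _ hx hy => rw [map_add, map_add, map_add, hx, hy]
    | mul x y _ _ hx hy => rw [map_mul, map_mul, map_mul, hx, hy]
  rw [hagree f hsupp, h0, map_zero]

theorem hyb_final3 [CharZero F] {w : Fin n → ℕ} {f : MvPolynomial (Fin n) F}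
    (hsupp : f ∈ supported F {i | w i ≠ 0}) (H : Finset (Fin n)) (bl : Fin n → Fin t) (R q : ℕ)
    (hcap : ∀ c : Fin t, ∑ i ∈ Finset.univ.filter (fun i => i ∉ H ∧ bl i = c), w i ≤ R)
    (h : HasPar w R q f (MvPolynomial (Fin n ⊕ (Fin ℓ ⊕ Fin t)) F))
    (hℓ : q + R ≤ ℓ) (hf : f ≠ 0) : aeval (hybv F ℓ H bl t) f ≠ 0 := by
  have key : ∀ m : ℕ, aeval (hybv F ℓ H bl m) f ≠ 0 := by
    intro m
    induction m with
    | zero =>
      intro h0
      apply hf
      have h1 : hybv F ℓ H bl 0 = fun i => X (Sum.inl i) := by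
        funext i
        simp [hybv]
      rw [h1] at h0
      have h2 : (aeval (Sum.elim X (fun _ => 0)) :
          MvPolynomial (Fin n ⊕ (Fin ℓ ⊕ Fin t)) F →ₐ[F] MvPolynomial (Fin n) F).comp
          (aeval fun i => (X (Sum.inl i) : MvPolynomial (Fin n ⊕ (Fin ℓ ⊕ Fin t)) F)) =
          AlgHom.id F _ := by
        apply MvPolynomial.algHom_ext
        intro j
        simp
      have h3 := congrArg (fun χ => χ f) h2
      simp only [AlgHom.comp_apply, AlgHom.id_apply] at h3
      rw [← h3, h0, map_zero]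
    | succ m ih => exact hyb_step3 hsupp H bl R q hcap h hℓ m ih
  exact key t

end hybrid

/-- nonvanishing at an integer point -/
theorem exists_seeds3 {F : Type*} [Field F] [CharZero F] {n : ℕ} {w : Fin n → ℕ}
    {f : MvPolynomial (Fin n) F} (hsupp : f ∈ supported F {i | w i ≠ 0}) (s r q ℓ d : ℕ)
    (hs : ∑ i, w i ≤ s) (hr : 1 ≤ r)
    (h : HasPar w (2 * (r - 1)) q f (MvPolynomial (Fin n ⊕ (Fin ℓ ⊕ Fin (s / r + 1))) F))
    (hℓ : q + 2 * (r - 1) ≤ ℓ) (hdeg : f.totalDegree ≤ d) (hf : f ≠ 0) :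
    ∃ (H : Finset (Fin n)) (bl : Fin n → Fin (s / r + 1)), H.card ≤ s / r ∧ Monotone bl ∧
      ∃ (v : Fin n → ℕ) (y : Fin ℓ → ℕ) (u : Fin (s / r + 1) → ℕ),
        (∀ i, v i ≤ d) ∧ (∀ k, y k ≤ d) ∧ (∀ c, u c ≤ n * ℓ * d) ∧
        MvPolynomial.eval (fun i => if i ∈ H then (v i : F) else
          ∑ k : Fin ℓ, (y k : F) * (u (bl i) : F) ^ (((i : ℕ) + 1) * (k : ℕ))) f ≠ 0 := by
  classical
  obtain ⟨H, bl, hH, hbl, hcap⟩ := exists_plan w s r hs hr
  refine ⟨H, bl, hH, hbl, ?_⟩
  have hne := hyb_final3 (ℓ := ℓ) hsupp H bl (2 * (r - 1)) q hcap h hℓ hf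
  by_contra hcon
  push Not at hcon
  apply hne
  apply MvPolynomial.eq_zero_of_eval_zero_at_prod_finset _
    (Sum.elim (fun _ : Fin n => (Finset.range (d + 1)).image (fun k : ℕ => (k : F)))
      (Sum.elim (fun _ : Fin ℓ => (Finset.range (d + 1)).image (fun k : ℕ => (k : F)))
        (fun _ : Fin (s / r + 1) =>
          (Finset.range (n * ℓ * d + 1)).image (fun k : ℕ => (k : F)))))
  · rintro (l | l | l)
    · rw [Sum.elim_inl, Finset.card_image_of_injective _ Nat.cast_injective, Finset.card_range]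
      exact Nat.lt_succ_of_le ((hyb_degreeOf_inl H bl _ l f).trans hdeg)
    · rw [Sum.elim_inr, Sum.elim_inl, Finset.card_image_of_injective _ Nat.cast_injective,
        Finset.card_range]
      exact Nat.lt_succ_of_le ((hyb_degreeOf_y H bl _ l f).trans hdeg)
    · rw [Sum.elim_inr, Sum.elim_inr, Finset.card_image_of_injective _ Nat.cast_injective,
        Finset.card_range]
      exact Nat.lt_succ_of_le ((hyb_degreeOf_u H bl _ l f).trans (Nat.mul_le_mul_left _ hdeg))
  · intro x hx
    have hv : ∀ l : Fin n, ∃ k ∈ Finset.range (d + 1), ((k : ℕ) : F) = x (Sum.inl l) := by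
      intro l
      have := hx (Sum.inl l)
      rw [Sum.elim_inl, Finset.mem_image] at this
      exact this
    have hy : ∀ l : Fin ℓ, ∃ k ∈ Finset.range (d + 1),
        ((k : ℕ) : F) = x (Sum.inr (Sum.inl l)) := by
      intro l
      have := hx (Sum.inr (Sum.inl l))
      rw [Sum.elim_inr, Sum.elim_inl, Finset.mem_image] at this
      exact this
    have hu : ∀ l : Fin (s / r + 1), ∃ k ∈ Finset.range (n * ℓ * d + 1),
        ((k : ℕ) : F) = x (Sum.inr (Sum.inr l)) := by
      intro l
      have := hx (Sum.inr (Sum.inr l))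
      rw [Sum.elim_inr, Sum.elim_inr, Finset.mem_image] at this
      exact this
    choose v hv1 hv2 using hv
    choose y hy1 hy2 using hy
    choose u hu1 hu2 using hu
    have h1 := hcon v y u (fun i => Nat.lt_succ_iff.1 (Finset.mem_range.1 (hv1 i)))
      (fun i => Nat.lt_succ_iff.1 (Finset.mem_range.1 (hy1 i)))
      (fun i => Nat.lt_succ_iff.1 (Finset.mem_range.1 (hu1 i)))
    rw [← h1, ← MvPolynomial.coe_aeval_eq_eval, RingHom.coe_coe, ← AlgHom.comp_apply,
      MvPolynomial.comp_aeval, ← MvPolynomial.coe_aeval_eq_eval, RingHom.coe_coe]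
    congr 2
    funext i
    have h2 : ¬ (s / r + 1 ≤ (bl i).val) := by
      have := (bl i).isLt
      omega
    unfold hybv
    by_cases hi : i ∈ H
    · rw [if_pos (Or.inl hi), if_pos hi, aeval_X, hv2]
    · rw [if_neg (by push Not; exact ⟨hi, (bl i).isLt⟩), if_neg hi, map_sum]
      apply Finset.sum_congr rfl
      intro k _
      rw [map_mul, map_pow, aeval_X, aeval_X, hy2, hu2]

end Pool.Agent.H532R2.DT
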