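import Mathlib
import Pool.Agent.H532R2.DT.Dm
import Pool.Agent.H532R2.DT.Hyb

/-!
Circuits with few unrestricted products.
-/

namespace Pool.Agent.H532R2.DT

open MvPolynomial Pool.Agent.H530R2

variable {F : Type*} [Field F] {n : ℕ}

/-- the node number `k` of a circuit with the values `z`; `w k` counts occurrences of variables at
the node, and `K` contains all nodes with unrestricted products -/
inductive Row (z : ℕ → MvPolynomial (Fin n) F) (w : ℕ → Fin n → ℕ) (K : Finset ℕ) (k : ℕ) : Prop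
  | leaf (h : Dm (w k) (z k)) : Row z w K k
  | add (a b : ℕ) (ha : a < k) (hb : b < k) (h : z k = z a + z b) : Row z w K k
  | skew (a : ℕ) (f : MvPolynomial (Fin n) F) (ha : a < k) (hf : Dm (w k) f)
      (h : z k = f * z a) : Row z w K k
  | prod (a b : ℕ) (ha : a < k) (hb : b < k) (hk : k ∈ K) (h : z k = z a * z b) : Row z w K k

/-- linear elimination of the dead nodes -/
theorem eliminate {S : Type*} [CommRing S] (N : ℕ) (y : ℕ → MvPolynomial (Fin n) S)
    (Sp : Finset ℕ)
    (hdead : ∀ k < N, k ∉ Sp → (∃ b : S, y k = C b) ∨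
      (∃ a b, a < k ∧ b < k ∧ y k = y a + y b) ∨ (∃ (a : ℕ) (b : S), a < k ∧ y k = C b * y a)) :
    ∀ j < N, ∃ (P : ℕ → S) (p : S), (∀ k, P k ≠ 0 → k ≤ j) ∧
      y j = ∑ k ∈ Sp, C (P k) * y k + C p := by
  classical
  intro j
  induction j using Nat.strong_induction_on with
  | _ j ih =>
    intro hj
    by_cases hjS : j ∈ Sp
    · refine ⟨fun k => if k = j then 1 else 0, 0, ?_, ?_⟩
      · intro k hk
        by_contra hcon
        apply hk
        simp only
        rw [if_neg (by omega)]
      · rw [Finset.sum_eq_single j]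
        · simp
        · intro k _ hk
          simp [hk]
        · exact fun h => absurd hjS h
    · rcases hdead j hj hjS with ⟨b, hb⟩ | ⟨a, b, ha, hb, hab⟩ | ⟨a, b, ha, hab⟩
      · exact ⟨fun _ => 0, b, fun k hk => absurd rfl hk, by rw [hb]; simp⟩
      · obtain ⟨P, p, h1, h2⟩ := ih a ha (ha.trans hj)
        obtain ⟨Q, q, h3, h4⟩ := ih b hb (hb.trans hj)
        refine ⟨fun k => P k + Q k, p + q, ?_, ?_⟩
        · intro k hk
          by_contra hcon
          apply hk
          have e1 : P k = 0 := by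
            by_contra h
            have := h1 k h
            omega
          have e2 : Q k = 0 := by
            by_contra h
            have := h3 k h
            omega
          simp only
          rw [e1, e2, add_zero]
        · rw [hab, h2, h4, map_add]
          simp only [map_add, add_mul, Finset.sum_add_distrib]
          ring
      · obtain ⟨P, p, h1, h2⟩ := ih a ha (ha.trans hj)
        refine ⟨fun k => b * P k, b * p, ?_, ?_⟩
        · intro k hk
          have h3 : P k ≠ 0 := by
            intro h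
            apply hk
            simp only
            rw [h, mul_zero]
          have := h1 k h3
          omega
        · rw [hab, h2, mul_add, Finset.mul_sum]
          congr 1
          · apply Finset.sum_congr rfl
            intro k _
            rw [map_mul]
            ring
          · rw [map_mul]

theorem circ_par {S : Type*} [CommRing S] [IsDomain S] [CharZero S] [Algebra F S]
    (z : ℕ → MvPolynomial (Fin n) F) (w : ℕ → Fin n → ℕ) (K : Finset ℕ) (N : ℕ)
    (hrow : ∀ k < N, Row z w K k) (out : ℕ) (hout : out < N) (V : Finset (Fin n)) (r h : ℕ)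
    (hr : ∑ k ∈ Finset.range N, ∑ i ∈ V, w k i ≤ r) (hK : K.card ≤ h) (s : Fin n → S)
    (ρ : MvPolynomial (Fin n) F →ₐ[F] MvPolynomial (Fin n) S)
    (hρ1 : ∀ j ∈ V, ρ (X j) = X j) (hρ2 : ∀ j ∉ V, ρ (X j) = C (s j)) :
    Par F ((r + 2 * h + 1) * (r + h + 1) + 2 * r ^ 2) (ρ (z out)) := by
  classical
  set y : ℕ → MvPolynomial (Fin n) S := fun k => ρ (z k) with hy
  set Sp : Finset ℕ := (Finset.range N).filter (fun k => ¬ ((∃ b : S, y k = C b) ∨
      (∃ a b, a < k ∧ b < k ∧ y k = y a + y b) ∨ (∃ (a : ℕ) (b : S), a < k ∧ y k = C b * y a)))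
    with hSp
  have hdead : ∀ k < N, k ∉ Sp → (∃ b : S, y k = C b) ∨
      (∃ a b, a < k ∧ b < k ∧ y k = y a + y b) ∨
        (∃ (a : ℕ) (b : S), a < k ∧ y k = C b * y a) := by
    intro k hk hkS
    by_contra hcon
    exact hkS (Finset.mem_filter.2 ⟨Finset.mem_range.2 hk, hcon⟩)
  have helim := eliminate N y Sp hdead
  -- the alive nodes
  set rr : ℕ → ℕ := fun k => ∑ i ∈ V, w k i with hrr
  set Al : ℕ → Prop := fun k => 1 ≤ rr k ∧ ∃ (e : MvPolynomial (Fin n) S) (T : Finset S) (a : ℕ),
    T.card ≤ 2 * (rr k) ^ 2 ∧ (∀ D : Derivation F S S, (∀ x ∈ T, D x = 0) → e ∈ Kc n D) ∧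
    (y k = e ∨ (a < k ∧ y k = e * y a)) with hAl
  have halive : ∀ (k : ℕ) (f : MvPolynomial (Fin n) F), Dm (w k) f →
      (∃ b : S, ρ f = C b) ∨ (1 ≤ rr k ∧ ∃ T : Finset S, T.card ≤ 2 * (rr k) ^ 2 ∧
        ∀ D : Derivation F S S, (∀ x ∈ T, D x = 0) → ρ f ∈ Kc n D) := by
    intro k f hf
    rcases hf.cmp V s ρ hρ1 hρ2 with h1 | ⟨h1, α, β, g, ⟨T, hT, hT'⟩, h2⟩
    · exact Or.inl h1
    · refine Or.inr ⟨h1, T ∪ {α, β}, ?_, fun D hD => ?_⟩
      · have e1 := Finset.card_union_le T {α, β}
        have e2 : ({α, β} : Finset S).card ≤ 2 := Finset.card_le_two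
        have e3 : 1 ≤ (rr k) ^ 2 := Nat.one_le_pow _ _ h1
        have e4 : rr k = ∑ i ∈ V, w k i := rfl
        rw [e4] at e3 ⊢
        omega
      · rw [h2]
        refine Subring.add_mem _ (Subring.mul_mem _ (C_mem_Kc (hD α (by simp))) ?_)
          (C_mem_Kc (hD β (by simp)))
        exact hT' D fun x hx => hD x (by simp [hx])
  have hcase : ∀ k ∈ Sp, Al k ∨ (k ∈ K ∧ ∃ a b, a < k ∧ b < k ∧ y k = y a * y b) := by
    intro k hk
    rw [hSp, Finset.mem_filter] at hk
    obtain ⟨hkN, hnd⟩ := hk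
    push Not at hnd
    rcases hrow k (Finset.mem_range.1 hkN) with h1 | ⟨a, b, ha, hb, hab⟩ | ⟨a, f, ha, hf, haf⟩ |
      ⟨a, b, ha, hb, hkK, hab⟩
    · rcases halive k (z k) h1 with ⟨b, hb⟩ | ⟨h2, T, hT, hT'⟩
      · exact absurd hb (hnd.1 b)
      · exact Or.inl ⟨h2, y k, T, 0, hT, hT', Or.inl rfl⟩
    · exfalso
      apply hnd.2.1 a b ha hb
      simp only [hy]
      rw [hab, map_add]
    · rcases halive k f hf with ⟨b, hb⟩ | ⟨h2, T, hT, hT'⟩
      · exfalso
        apply hnd.2.2 a b ha
        simp only [hy]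
        rw [haf, map_mul, hb]
      · refine Or.inl ⟨h2, ρ f, T, a, hT, hT', Or.inr ⟨ha, ?_⟩⟩
        simp only [hy]
        rw [haf, map_mul]
    · refine Or.inr ⟨hkK, a, b, ha, hb, ?_⟩
      simp only [hy]
      rw [hab, map_mul]
  set L : Finset ℕ := Sp.filter Al with hL
  set M : Finset ℕ := Sp.filter (fun k => ¬ Al k) with hM
  have hLA : ∀ k ∈ L, Al k := fun k hk => (Finset.mem_filter.1 hk).2
  have hMK : ∀ k ∈ M, k ∈ K ∧ ∃ a b, a < k ∧ b < k ∧ y k = y a * y b := by
    intro k hk
    rw [hM, Finset.mem_filter] at hk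
    rcases hcase k hk.1 with h1 | h1
    · exact absurd h1 hk.2
    · exact h1
  have hLM : Sp = L ∪ M := by
    rw [hL, hM, Finset.filter_union_filter_not_eq]
  have hr1 : ∀ k ∈ L, 1 ≤ rr k := fun k hk => (hLA k hk).1
  have hLsub : L ⊆ Finset.range N := by
    intro k hk
    rw [hL, Finset.mem_filter, hSp, Finset.mem_filter] at hk
    exact hk.1.1
  have hLr : ∑ k ∈ L, rr k ≤ r := (Finset.sum_le_sum_of_subset hLsub).trans hr
  have hLcard : L.card ≤ r := by
    refine le_trans ?_ hLr
    rw [Finset.card_eq_sum_ones]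
    exact Finset.sum_le_sum fun k hk => hr1 k hk
  have hMcard : M.card ≤ h := (Finset.card_le_card fun k hk => (hMK k hk).1).trans hK
  have hex1 : ∀ k ∈ L, ∃ (e : MvPolynomial (Fin n) S) (T : Finset S) (a : ℕ),
      T.card ≤ 2 * (rr k) ^ 2 ∧ (∀ D : Derivation F S S, (∀ x ∈ T, D x = 0) → e ∈ Kc n D) ∧
      (y k = e ∨ (a < k ∧ y k = e * y a)) := fun k hk => (hLA k hk).2
  choose! e T a hT hTe hya using hex1
  have hex2 : ∀ k ∈ M, ∃ a b, a < k ∧ b < k ∧ y k = y a * y b := fun k hk => (hMK k hk).2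
  choose! pa pb hpa hpb hpab using hex2
  choose! P p hP hPy using helim
  set J : Finset ℕ := (((L.filter (fun k => a k < k)).image a ∪ M.image pa) ∪ M.image pb) ∪ {out}
    with hJ
  have hJcard : J.card ≤ r + 2 * h + 1 := by
    have c1 := Finset.card_union_le
      (((L.filter (fun k => a k < k)).image a ∪ M.image pa) ∪ M.image pb) {out}
    have c2 := Finset.card_union_le ((L.filter (fun k => a k < k)).image a ∪ M.image pa)
      (M.image pb)
    have c3 := Finset.card_union_le ((L.filter (fun k => a k < k)).image a) (M.image pa)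
    have c4 : ((L.filter (fun k => a k < k)).image a).card ≤ L.card :=
      Finset.card_image_le.trans (Finset.card_filter_le _ _)
    have c5 : (M.image pa).card ≤ M.card := Finset.card_image_le
    have c6 : (M.image pb).card ≤ M.card := Finset.card_image_le
    have c7 : ({out} : Finset ℕ).card = 1 := Finset.card_singleton _
    rw [hJ]
    omega
  have hSpcard : Sp.card ≤ r + h := by
    rw [hLM]
    exact (Finset.card_union_le _ _).trans (Nat.add_le_add hLcard hMcard)
  refine ⟨((J ×ˢ Sp).image (fun q => P q.1 q.2) ∪ J.image p) ∪ L.biUnion T, ?_, ?_⟩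
  · have c1 := Finset.card_union_le
      ((J ×ˢ Sp).image (fun q => P q.1 q.2) ∪ J.image p) (L.biUnion T)
    have c2 := Finset.card_union_le ((J ×ˢ Sp).image (fun q => P q.1 q.2)) (J.image p)
    have c3 : ((J ×ˢ Sp).image (fun q => P q.1 q.2)).card ≤ J.card * Sp.card :=
      Finset.card_image_le.trans (Finset.card_product _ _).le
    have c4 : (J.image p).card ≤ J.card := Finset.card_image_le
    have c5 : (L.biUnion T).card ≤ ∑ k ∈ L, 2 * (rr k) ^ 2 :=
      Finset.card_biUnion_le.trans (Finset.sum_le_sum fun k hk => hT k hk)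
    have c6 : ∑ k ∈ L, 2 * (rr k) ^ 2 ≤ 2 * r ^ 2 := by
      rw [← Finset.mul_sum]
      have d1 := sum_sq_ineq L rr hr1
      have d2 : (∑ k ∈ L, rr k) ^ 2 ≤ r ^ 2 := Nat.pow_le_pow_left hLr 2
      have d3 : 0 ≤ L.card * (L.card - 1) := Nat.zero_le _
      omega
    have c7 : J.card * Sp.card + J.card ≤ (r + 2 * h + 1) * (r + h + 1) := by
      calc J.card * Sp.card + J.card = J.card * (Sp.card + 1) := by ring
        _ ≤ (r + 2 * h + 1) * (r + h + 1) := Nat.mul_le_mul hJcard (by omega)
    omega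
  · intro D hD
    have d1 : ∀ j ∈ J, ∀ k ∈ Sp, D (P j k) = 0 := by
      intro j hj k hk
      apply hD
      rw [Finset.mem_union, Finset.mem_union]
      exact Or.inl (Or.inl (Finset.mem_image.2 ⟨(j, k), Finset.mem_product.2 ⟨hj, hk⟩, rfl⟩))
    have d2 : ∀ j ∈ J, D (p j) = 0 := by
      intro j hj
      apply hD
      rw [Finset.mem_union, Finset.mem_union]
      exact Or.inl (Or.inr (Finset.mem_image.2 ⟨j, hj, rfl⟩))
    have d3 : ∀ k ∈ L, e k ∈ Kc n D := by
      intro k hk
      apply hTe k hk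
      intro x hx
      apply hD
      rw [Finset.mem_union]
      exact Or.inr (Finset.mem_biUnion.2 ⟨k, hk, hx⟩)
    have hstep : ∀ j < N, j ∈ J → (∀ k ∈ Sp, k ≤ j → y k ∈ Kc n D) → y j ∈ Kc n D := by
      intro j hj hjJ hk
      rw [hPy j hj]
      refine Subring.add_mem _ (Subring.sum_mem _ fun k hkS => ?_) (C_mem_Kc (d2 j hjJ))
      by_cases h0 : P j k = 0
      · rw [h0, map_zero, zero_mul]
        exact Subring.zero_mem _
      · exact Subring.mul_mem _ (C_mem_Kc (d1 j hjJ k hkS)) (hk k hkS (hP j hj k h0))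
    have hSpN : ∀ k ∈ Sp, k < N := by
      intro k hk
      rw [hSp, Finset.mem_filter] at hk
      exact Finset.mem_range.1 hk.1
    have hall : ∀ k, k ∈ Sp → y k ∈ Kc n D := by
      intro k
      induction k using Nat.strong_induction_on with
      | _ k ih =>
        intro hk
        have hkN := hSpN k hk
        by_cases hA : Al k
        · have hkL : k ∈ L := Finset.mem_filter.2 ⟨hk, hA⟩
          rcases hya k hkL with h1 | ⟨h1, h2⟩
          · rw [h1]
            exact d3 k hkL
          · rw [h2]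
            refine Subring.mul_mem _ (d3 k hkL) (hstep (a k) (h1.trans hkN) ?_ ?_)
            · rw [hJ]
              simp only [Finset.mem_union, Finset.mem_image, Finset.mem_filter]
              exact Or.inl (Or.inl (Or.inl ⟨k, ⟨hkL, h1⟩, rfl⟩))
            · intro k' hk' hle
              exact ih k' (by omega) hk'
        · have hkM : k ∈ M := Finset.mem_filter.2 ⟨hk, hA⟩
          have h1 := hpa k hkM
          have h2 := hpb k hkM
          rw [hpab k hkM]
          refine Subring.mul_mem _ (hstep (pa k) (h1.trans hkN) ?_ ?_)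
            (hstep (pb k) (h2.trans hkN) ?_ ?_)
          · rw [hJ]
            simp only [Finset.mem_union, Finset.mem_image]
            exact Or.inl (Or.inl (Or.inr ⟨k, hkM, rfl⟩))
          · intro k' hk' hle
            exact ih k' (by omega) hk'
          · rw [hJ]
            simp only [Finset.mem_union, Finset.mem_image]
            exact Or.inl (Or.inr ⟨k, hkM, rfl⟩)
          · intro k' hk' hle
            exact ih k' (by omega) hk'
    exact hstep out hout (by rw [hJ]; simp) fun k hk _ => hall k hk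

theorem circ_supp (z : ℕ → MvPolynomial (Fin n) F) (w : ℕ → Fin n → ℕ) (K : Finset ℕ) (N : ℕ)
    (hrow : ∀ k < N, Row z w K k) :
    ∀ k < N, z k ∈ supported F {i | ∑ k ∈ Finset.range N, w k i ≠ 0} := by
  intro k
  induction k using Nat.strong_induction_on with
  | _ k ih =>
    intro hk
    have hsub : ({i | w k i ≠ 0} : Set (Fin n)) ⊆ {i | ∑ k ∈ Finset.range N, w k i ≠ 0} := by
      intro i hi
      simp only [Set.mem_ofPred_eq] at hi ⊢
      have := Finset.single_le_sum (f := fun k => w k i) (fun _ _ => Nat.zero_le _)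
        (Finset.mem_range.2 hk)
      have h2 : w k i ≤ ∑ k ∈ Finset.range N, w k i := this
      omega
    rcases hrow k hk with h1 | ⟨a, b, ha, hb, hab⟩ | ⟨a, f, ha, hf, haf⟩ | ⟨a, b, ha, hb, _, hab⟩
    · exact supported_mono hsub h1.supp
    · rw [hab]
      exact Subalgebra.add_mem _ (ih a ha (ha.trans hk)) (ih b hb (hb.trans hk))
    · rw [haf]
      exact Subalgebra.mul_mem _ (supported_mono hsub hf.supp) (ih a ha (ha.trans hk))
    · rw [hab]
      exact Subalgebra.mul_mem _ (ih a ha (ha.trans hk)) (ih b hb (hb.trans hk))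

theorem circ_deg (z : ℕ → MvPolynomial (Fin n) F) (w : ℕ → Fin n → ℕ) (K : Finset ℕ) (N : ℕ)
    (hrow : ∀ k < N, Row z w K k) :
    ∀ k < N, (z k).totalDegree ≤ (∑ j ∈ Finset.range (k + 1), ∑ i, w j i) *
      2 ^ (K.filter (fun j => j ≤ k)).card := by
  classical
  intro k
  induction k using Nat.strong_induction_on with
  | _ k ih =>
    intro hk
    set W : ℕ → ℕ := fun k => ∑ j ∈ Finset.range k, ∑ i, w j i with hW
    set Q : ℕ → ℕ := fun k => (K.filter (fun j => j ≤ k)).card with hQ
    have hWk : W (k + 1) = W k + ∑ i, w k i := Finset.sum_range_succ _ _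
    have hWm : ∀ a, a < k → W (a + 1) ≤ W k := by
      intro a ha
      apply Finset.sum_le_sum_of_subset
      intro x hx
      rw [Finset.mem_range] at hx ⊢
      omega
    have hQm : ∀ a, a < k → Q a ≤ Q k := by
      intro a ha
      apply Finset.card_le_card
      intro x hx
      rw [Finset.mem_filter] at hx ⊢
      exact ⟨hx.1, by omega⟩
    have hbd : ∀ a, a < k → (z a).totalDegree ≤ W k * 2 ^ Q k := by
      intro a ha
      refine (ih a ha (ha.trans hk)).trans ?_
      exact Nat.mul_le_mul (hWm a ha) (Nat.pow_le_pow_right (by norm_num) (hQm a ha))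
    have h2 : 1 ≤ 2 ^ Q k := Nat.one_le_two_pow
    show (z k).totalDegree ≤ W (k + 1) * 2 ^ Q k
    rw [hWk]
    rcases hrow k hk with h1 | ⟨a, b, ha, hb, hab⟩ | ⟨a, f, ha, hf, haf⟩ | ⟨a, b, ha, hb, hkK, hab⟩
    · refine h1.totalDegree_le.trans ?_
      calc ∑ i, w k i = (∑ i, w k i) * 1 := (mul_one _).symm
        _ ≤ (W k + ∑ i, w k i) * 2 ^ Q k := Nat.mul_le_mul (by omega) h2
    · rw [hab]
      refine (totalDegree_add _ _).trans (max_le ?_ ?_)
      · exact (hbd a ha).trans (Nat.mul_le_mul_right _ (by omega))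
      · exact (hbd b hb).trans (Nat.mul_le_mul_right _ (by omega))
    · rw [haf]
      refine (totalDegree_mul _ _).trans ?_
      have e1 := hf.totalDegree_le
      have e2 := hbd a ha
      calc f.totalDegree + (z a).totalDegree ≤ ∑ i, w k i + W k * 2 ^ Q k := Nat.add_le_add e1 e2
        _ = (∑ i, w k i) * 1 + W k * 2 ^ Q k := by rw [mul_one]
        _ ≤ (∑ i, w k i) * 2 ^ Q k + W k * 2 ^ Q k := by gcongr
        _ = _ := by ring
    · rw [hab]
      refine (totalDegree_mul _ _).trans ?_
      have hQa : ∀ a, a < k → Q a + 1 ≤ Q k := by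
        intro a ha
        apply Finset.card_lt_card
        rw [Finset.ssubset_iff_of_subset]
        · refine ⟨k, Finset.mem_filter.2 ⟨hkK, le_rfl⟩, ?_⟩
          rw [Finset.mem_filter]
          rintro ⟨_, h⟩
          omega
        · intro x hx
          rw [Finset.mem_filter] at hx ⊢
          exact ⟨hx.1, by omega⟩
      have hbd2 : ∀ a, a < k → 2 * (z a).totalDegree ≤ W k * 2 ^ Q k := by
        intro a ha
        have e1 := ih a ha (ha.trans hk)
        calc 2 * (z a).totalDegree ≤ 2 * (W (a + 1) * 2 ^ Q a) := Nat.mul_le_mul_left _ e1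
          _ = W (a + 1) * 2 ^ (Q a + 1) := by rw [pow_succ]; ring
          _ ≤ W k * 2 ^ Q k :=
            Nat.mul_le_mul (hWm a ha) (Nat.pow_le_pow_right (by norm_num) (hQa a ha))
      have e1 := hbd2 a ha
      have e2 := hbd2 b hb
      have e3 : W k * 2 ^ Q k ≤ (W k + ∑ i, w k i) * 2 ^ Q k := Nat.mul_le_mul_right _ (by omega)
      omega

theorem circ_seeds [CharZero F] (z : ℕ → MvPolynomial (Fin n) F) (w : ℕ → Fin n → ℕ)
    (K : Finset ℕ) (N : ℕ) (hrow : ∀ k < N, Row z w K k) (out : ℕ) (hout : out < N) (s h r : ℕ)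
    (hr : 1 ≤ r) (hs : ∑ k ∈ Finset.range N, ∑ i, w k i ≤ s) (hK : K.card ≤ h)
    (hne : z out ≠ 0) :
    ∃ (H : Finset (Fin n)) (bl : Fin n → Fin (s / r + 1)), H.card ≤ s / r ∧ Monotone bl ∧
      ∃ (v : Fin n → ℕ) (y : Fin (12 * (r + h) ^ 2) → ℕ) (u : Fin (s / r + 1) → ℕ),
        (∀ i, v i ≤ s * 2 ^ h) ∧ (∀ k, y k ≤ s * 2 ^ h) ∧
        (∀ c, u c ≤ n * (12 * (r + h) ^ 2) * (s * 2 ^ h)) ∧
        MvPolynomial.eval (fun i => if i ∈ H then (v i : F) else
          ∑ k : Fin (12 * (r + h) ^ 2), (y k : F) * (u (bl i) : F) ^ (((i : ℕ) + 1) * (k : ℕ)))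
            (z out) ≠ 0 := by
  classical
  set w' : Fin n → ℕ := fun i => ∑ k ∈ Finset.range N, w k i with hw'
  have hsw : ∑ i, w' i ≤ s := by
    rw [hw', Finset.sum_comm]
    exact hs
  refine exists_seeds3 (w := w') (circ_supp z w K N hrow out hout) s r
    ((2 * (r - 1) + 2 * h + 1) * (2 * (r - 1) + h + 1) + 2 * (2 * (r - 1)) ^ 2) _ _ hsw hr ?_ ?_ ?_
    hne
  · intro V hV sub ρ hρ1 hρ2
    refine circ_par z w K N hrow out hout V (2 * (r - 1)) h ?_ hK sub ρ hρ1 hρ2
    rw [Finset.sum_comm]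
    exact hV
  · obtain ⟨q, rfl⟩ := Nat.exists_eq_add_of_le' hr
    simp only [Nat.add_sub_cancel]
    nlinarith [Nat.zero_le q, Nat.zero_le h, Nat.zero_le (q * h)]
  · refine (circ_deg z w K N hrow out hout).trans ?_
    refine Nat.mul_le_mul ?_ (Nat.pow_le_pow_right (by norm_num) ?_)
    · refine le_trans ?_ hs
      apply Finset.sum_le_sum_of_subset
      intro x hx
      rw [Finset.mem_range] at hx ⊢
      omega
    · exact (Finset.card_filter_le _ _).trans hK

end Pool.Agent.H532R2.DT
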